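import Mathlib
import Pool.Agent.MobQ.Defs

set_option autoImplicit false

namespace Pool.Agent.Helper25.Dyn

open Finset Pool.Agent.MobQ

lemma abs_mu_le (n : ℕ) : |mu n| ≤ 1 := by
  unfold mu
  have := ArithmeticFunction.abs_moebius_le_one (n := n)
  exact_mod_cast this

/-- correlation of the Möbius function with `b` shifted by `j` -/
noncomputable def RS (b : ℕ → ℝ) (N j : ℕ) : ℝ := ∑ n ∈ range N, mu n * b (j + n)

/-- monomial: product of the shifts of `y` by the entries of the list -/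
noncomputable def mono (s : List ℕ) (y : ℕ → ℝ) (p : ℕ) : ℝ := (s.map (fun h => y (p + h))).prod

/-- truncated correlation -/
noncomputable def RT (k : ℕ) (b : ℕ → ℝ) (N j : ℕ) : ℝ :=
  ∑ n ∈ Ico k N, mu n * b (j + n)

/-- the level `k` test at position `j` fails for `y` -/
def fail (s : ℕ → List ℕ) (nk : ℕ → ℕ) (k j : ℕ) (y : ℕ → ℝ) : Prop :=
  ∃ i < k, ∃ N, nk k ≤ N ∧ N < nk (k + 1) ∧ (1 / (k : ℝ)) * (N : ℝ) < |RT k (mono (s i) y) N j|

lemma mono_congr {s : List ℕ} {y y' : ℕ → ℝ} {p : ℕ} (h : ∀ l ∈ s, y (p + l) = y' (p + l)) :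
    mono s y p = mono s y' p := by
  unfold mono
  congr 1
  exact List.map_congr_left h

lemma RT_congr {k N j : ℕ} {b b' : ℕ → ℝ} (h : ∀ n, k ≤ n → n < N → b (j + n) = b' (j + n)) :
    RT k b N j = RT k b' N j := by
  unfold RT
  apply Finset.sum_congr rfl
  intro n hn
  rw [mem_Ico] at hn
  rw [h n hn.1 hn.2]

lemma fail_congr {s : ℕ → List ℕ} {nk : ℕ → ℕ} {k j : ℕ} {y y' : ℕ → ℝ}
    (h : ∀ l, j + k ≤ l → y l = y' l) : fail s nk k j y ↔ fail s nk k j y' := by
  unfold fail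
  have : ∀ i N, RT k (mono (s i) y) N j = RT k (mono (s i) y') N j := by
    intro i N
    apply RT_congr
    intro n hn _
    apply mono_congr
    intro l _
    exact h _ (by omega)
  simp only [this]

open Classical in
/-- backward recursion on the window `[L, J)` with levels `1..K` -/
noncomputable def win (s : ℕ → List ℕ) (nk : ℕ → ℕ) (L J K : ℕ) : ℕ → ℝ
  | l => if h : L ≤ l ∧ l < J then
      (if ∃ k j, 1 ≤ k ∧ k ≤ K ∧ j ≤ l ∧ l < j + k ∧
          fail s nk k j (fun l' => if _h' : l < l' then win s nk L J K l' else 0) then 0 else mu l)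
    else 0
termination_by l => J - l
decreasing_by omega

lemma win_out {s : ℕ → List ℕ} {nk : ℕ → ℕ} {L J K l : ℕ} (h : ¬ (L ≤ l ∧ l < J)) :
    win s nk L J K l = 0 := by
  rw [win, dif_neg h]

lemma win_aux (s : ℕ → List ℕ) (nk : ℕ → ℕ) (L J K l : ℕ) :
    (∃ k j, 1 ≤ k ∧ k ≤ K ∧ j ≤ l ∧ l < j + k ∧
      fail s nk k j (fun l' => if _h' : l < l' then win s nk L J K l' else 0)) ↔
    (∃ k j, 1 ≤ k ∧ k ≤ K ∧ j ≤ l ∧ l < j + k ∧ fail s nk k j (win s nk L J K)) := by
  constructor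
  · rintro ⟨k, j, h1, h2, h3, h4, h5⟩
    refine ⟨k, j, h1, h2, h3, h4, ?_⟩
    rw [fail_congr (y' := win s nk L J K)] at h5
    · exact h5
    · intro l' hl'
      rw [dif_pos (by omega)]
  · rintro ⟨k, j, h1, h2, h3, h4, h5⟩
    refine ⟨k, j, h1, h2, h3, h4, ?_⟩
    rw [fail_congr (y' := win s nk L J K)]
    · exact h5
    · intro l' hl'
      rw [dif_pos (by omega)]

open Classical in
lemma win_eq {s : ℕ → List ℕ} {nk : ℕ → ℕ} {L J K l : ℕ} (h : L ≤ l ∧ l < J) :
    win s nk L J K l = if ∃ k j, 1 ≤ k ∧ k ≤ K ∧ j ≤ l ∧ l < j + k ∧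
      fail s nk k j (win s nk L J K) then 0 else mu l := by
  rw [win, dif_pos h]
  simp only [win_aux s nk L J K l]

lemma win_zero_of_fail {s : ℕ → List ℕ} {nk : ℕ → ℕ} {L J K k j l : ℕ} (h1 : 1 ≤ k) (h2 : k ≤ K)
    (h3 : j ≤ l) (h4 : l < j + k) (h5 : fail s nk k j (win s nk L J K)) :
    win s nk L J K l = 0 := by
  by_cases h : L ≤ l ∧ l < J
  · rw [win_eq h, if_pos ⟨k, j, h1, h2, h3, h4, h5⟩]
  · exact win_out h

lemma win_or (s : ℕ → List ℕ) (nk : ℕ → ℕ) (L J K l : ℕ) :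
    win s nk L J K l = 0 ∨ win s nk L J K l = mu l := by
  by_cases h : L ≤ l ∧ l < J
  · rw [win_eq h]
    split_ifs
    · left; rfl
    · right; rfl
  · left
    exact win_out h

lemma abs_win_le (s : ℕ → List ℕ) (nk : ℕ → ℕ) (L J K l : ℕ) : |win s nk L J K l| ≤ 1 := by
  rcases win_or s nk L J K l with h | h
  · rw [h]; simp
  · rw [h]; exact abs_mu_le l

lemma abs_mono_le {s : List ℕ} {y : ℕ → ℝ} (hy : ∀ l, |y l| ≤ 1) (p : ℕ) : |mono s y p| ≤ 1 := by
  unfold mono
  induction s with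
  | nil => simp
  | cons a t ih =>
    rw [List.map_cons, List.prod_cons, abs_mul]
    exact mul_le_one₀ (hy _) (abs_nonneg _) ih

lemma mono_zero {s : List ℕ} {y : ℕ → ℝ} {J p : ℕ} (hs : s ≠ []) (hy : ∀ l, J ≤ l → y l = 0)
    (hp : J ≤ p) : mono s y p = 0 := by
  unfold mono
  cases s with
  | nil => exact absurd rfl hs
  | cons a t =>
    rw [List.map_cons, List.prod_cons, hy (p + a) (by omega), zero_mul]

lemma RS_sub_RT {b : ℕ → ℝ} (hb1 : ∀ l, |b l| ≤ 1) {k N j : ℕ} (hkN : k ≤ N) :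
    |RS b N j - RT k b N j| ≤ k := by
  have h1 : RS b N j = ∑ n ∈ range k, mu n * b (j + n) + RT k b N j := by
    unfold RS RT
    exact (Finset.sum_range_add_sum_Ico _ hkN).symm
  rw [h1, add_sub_cancel_right]
  calc |∑ n ∈ range k, mu n * b (j + n)|
      ≤ ∑ n ∈ range k, |mu n * b (j + n)| := Finset.abs_sum_le_sum_abs _ _
    _ ≤ ∑ n ∈ range k, (1 : ℝ) := by
        apply Finset.sum_le_sum
        intro n _
        rw [abs_mul]
        exact mul_le_one₀ (abs_mu_le n) (abs_nonneg _) (hb1 _)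
    _ = k := by simp

/-- the maximal inequality at level `k` with density `δ` -/
def MaxAt (nk : ℕ → ℕ) (δ : ℕ → ℝ) (k : ℕ) : Prop := ∀ (P : ℕ) (w : ℕ → ℝ),
    (∀ n, |w n| ≤ 1) → (∀ n, P ≤ n → w n = 0) →
    (({p : ℕ | p < P ∧ ∃ N : ℕ, nk k ≤ N ∧
      1 / (2 * (k : ℝ)) * (N : ℝ) < |∑ n ∈ range N, w (p + n) * mu n|}.ncard : ℕ) : ℝ) ≤ δ k * (P : ℝ)

/-- number of failures at level `k` -/
lemma fail_count {s : ℕ → List ℕ} (hs : ∀ i, s i ≠ []) {nk : ℕ → ℕ} {k : ℕ} (hk : 1 ≤ k)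
    (hnk : 2 * k ^ 2 ≤ nk k) {y : ℕ → ℝ} (hy : ∀ l, |y l| ≤ 1) {J : ℕ} (hyJ : ∀ l, J ≤ l → y l = 0)
    {δ : ℕ → ℝ} (hM : MaxAt nk δ k)
    (F : Finset ℕ) (hF : ∀ j ∈ F, fail s nk k j y) :
    (F.card : ℝ) ≤ k * (δ k * J) := by
  classical
  have hkR : (1 : ℝ) ≤ k := by exact_mod_cast hk
  -- cover by the sets with a fixed `i`
  set G : ℕ → Finset ℕ := fun i => F.filter (fun j => ∃ N, nk k ≤ N ∧ N < nk (k + 1) ∧
    (1 / (k : ℝ)) * (N : ℝ) < |RT k (mono (s i) y) N j|) with hG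
  have hcov : F ⊆ (range k).biUnion G := by
    intro j hj
    rw [mem_biUnion]
    obtain ⟨i, hi, N, h⟩ := hF j hj
    exact ⟨i, mem_range.mpr hi, mem_filter.mpr ⟨hj, N, h⟩⟩
  have hGc : ∀ i, ((G i).card : ℝ) ≤ δ k * J := by
    intro i
    have h := hM J (mono (s i) y) (abs_mono_le hy) (fun l hl => mono_zero (hs i) hyJ hl)
    refine le_trans ?_ h
    have hfin : ({p : ℕ | p < J ∧ ∃ N : ℕ, nk k ≤ N ∧
      1 / (2 * (k : ℝ)) * (N : ℝ) < |∑ n ∈ range N, mono (s i) y (p + n) * mu n|}).Finite :=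
      (Set.finite_lt_nat J).subset (fun p hp => hp.1)
    have hsub : ((G i : Finset ℕ) : Set ℕ) ⊆ {p : ℕ | p < J ∧ ∃ N : ℕ, nk k ≤ N ∧
      1 / (2 * (k : ℝ)) * (N : ℝ) < |∑ n ∈ range N, mono (s i) y (p + n) * mu n|} := by
      intro j hj
      rw [Finset.mem_coe, hG] at hj
      simp only [mem_filter] at hj
      obtain ⟨_, N, h1, h2, h3⟩ := hj
      have hNk : (2 : ℝ) * (k : ℝ) ^ 2 ≤ N := by
        have : 2 * k ^ 2 ≤ N := le_trans hnk h1
        exact_mod_cast this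
      have hkN : k ≤ N := by
        have : k ≤ k ^ 2 := Nat.le_self_pow (by norm_num) k
        omega
      refine ⟨?_, N, h1, ?_⟩
      · by_contra hcon
        push Not at hcon
        have : RT k (mono (s i) y) N j = 0 := by
          unfold RT
          apply Finset.sum_eq_zero
          intro n _
          rw [mono_zero (hs i) hyJ (by omega), mul_zero]
        rw [this, abs_zero] at h3
        have : (0 : ℝ) ≤ 1 / (k : ℝ) * (N : ℝ) := by positivity
        linarith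
      · have h4 := RS_sub_RT (abs_mono_le (s := s i) hy) (k := k) (N := N) (j := j) hkN
        have h5 : |RT k (mono (s i) y) N j| ≤ |RS (mono (s i) y) N j| +
            |RS (mono (s i) y) N j - RT k (mono (s i) y) N j| := by
          calc |RT k (mono (s i) y) N j| = |RS (mono (s i) y) N j -
              (RS (mono (s i) y) N j - RT k (mono (s i) y) N j)| := by
                congr 1
                ring
            _ ≤ _ := abs_sub _ _
        have h6 : (k : ℝ) ≤ 1 / (2 * (k : ℝ)) * (N : ℝ) := by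
          rw [div_mul_eq_mul_div, one_mul, le_div_iff₀ (by positivity)]
          have : (k : ℝ) * (2 * k) = 2 * (k : ℝ) ^ 2 := by ring
          rw [this]
          exact hNk
        have h7 : 1 / (k : ℝ) * (N : ℝ) = 1 / (2 * (k : ℝ)) * (N : ℝ) +
            1 / (2 * (k : ℝ)) * (N : ℝ) := by
          field_simp
          ring
        have h8 : ∑ n ∈ range N, mono (s i) y (j + n) * mu n = RS (mono (s i) y) N j := by
          unfold RS
          exact Finset.sum_congr rfl (fun n _ => mul_comm _ _)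
        rw [h8]
        linarith
    have h9 := Set.ncard_le_ncard hsub hfin
    rw [Set.ncard_coe_finset] at h9
    exact_mod_cast h9
  calc (F.card : ℝ) ≤ (((range k).biUnion G).card : ℝ) := by
        exact_mod_cast Finset.card_le_card hcov
    _ ≤ ∑ i ∈ range k, ((G i).card : ℝ) := by
        exact_mod_cast Finset.card_biUnion_le
    _ ≤ ∑ i ∈ range k, δ k * J :=
        Finset.sum_le_sum (fun i _ => hGc i)
    _ = k * (δ k * J) := by
        rw [Finset.sum_const, card_range, nsmul_eq_mul]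

/-- number of erased positions in a window -/
lemma erased_count {s : ℕ → List ℕ} (hs : ∀ i, s i ≠ []) {nk : ℕ → ℕ}
    (hnk : ∀ k, 1 ≤ k → 2 * k ^ 2 ≤ nk k) {δ : ℕ → ℝ} (hM : ∀ k, 1 ≤ k → MaxAt nk δ k)
    (L J K : ℕ) (D : Finset ℕ) (hD : ∀ l ∈ D, L ≤ l ∧ l < J ∧ win s nk L J K l ≠ mu l) :
    (D.card : ℝ) ≤ J * ∑ k ∈ Icc 1 K, (k : ℝ) ^ 2 * δ k := by
  classical
  set y := win s nk L J K with hy
  have hy1 : ∀ l, |y l| ≤ 1 := abs_win_le s nk L J K
  have hyJ : ∀ l, J ≤ l → y l = 0 := fun l hl => win_out (by omega)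
  set F : ℕ → Finset ℕ := fun k => (range J).filter (fun j => fail s nk k j y) with hF
  -- each erased position comes from a failure
  have hcov : D ⊆ (Icc 1 K).biUnion (fun k => (F k).biUnion (fun j => Ico j (j + k))) := by
    intro l hl
    obtain ⟨h1, h2, h3⟩ := hD l hl
    have h4 := win_eq (s := s) (nk := nk) (K := K) ⟨h1, h2⟩
    rw [← hy] at h4
    by_cases h5 : ∃ k j, 1 ≤ k ∧ k ≤ K ∧ j ≤ l ∧ l < j + k ∧ fail s nk k j y
    · obtain ⟨k, j, h6, h7, h8, h9, h10⟩ := h5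
      rw [mem_biUnion]
      refine ⟨k, mem_Icc.mpr ⟨h6, h7⟩, ?_⟩
      rw [mem_biUnion]
      exact ⟨j, mem_filter.mpr ⟨mem_range.mpr (by omega), h10⟩, mem_Ico.mpr ⟨h8, h9⟩⟩
    · rw [if_neg h5] at h4
      exact absurd h4 h3
  have hFc : ∀ k ∈ Icc 1 K, ((F k).card : ℝ) ≤ k * (δ k * J) := by
    intro k hk
    rw [mem_Icc] at hk
    exact fail_count hs hk.1 (hnk k hk.1) hy1 hyJ (hM k hk.1) (F k)
      (fun j hj => (mem_filter.mp hj).2)
  calc (D.card : ℝ) ≤ (((Icc 1 K).biUnion (fun k => (F k).biUnion (fun j => Ico j (j + k)))).card : ℝ) := by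
        exact_mod_cast Finset.card_le_card hcov
    _ ≤ ∑ k ∈ Icc 1 K, (((F k).biUnion (fun j => Ico j (j + k))).card : ℝ) := by
        exact_mod_cast Finset.card_biUnion_le
    _ ≤ ∑ k ∈ Icc 1 K, (k : ℝ) * (F k).card := by
        apply Finset.sum_le_sum
        intro k _
        have : ((F k).biUnion (fun j => Ico j (j + k))).card ≤ ∑ j ∈ F k, (Ico j (j + k)).card :=
          Finset.card_biUnion_le
        have h2 : ∑ j ∈ F k, (Ico j (j + k)).card = k * (F k).card := by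
          simp [mul_comm]
        rw [h2] at this
        exact_mod_cast this
    _ ≤ ∑ k ∈ Icc 1 K, (k : ℝ) * (k * (δ k * J)) := by
        apply Finset.sum_le_sum
        intro k hk
        exact mul_le_mul_of_nonneg_left (hFc k hk) (by positivity)
    _ = J * ∑ k ∈ Icc 1 K, (k : ℝ) ^ 2 * δ k := by
        rw [Finset.mul_sum]
        apply Finset.sum_congr rfl
        intro k _
        ring

end Pool.Agent.Helper25.Dyn
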