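import Mathlib
import Pool.Agent.Helper25.Dyn.Window

set_option autoImplicit false

namespace Pool.Agent.Helper25.Dyn

open Finset Pool.Agent.MobQ

/-! ### squarefree numbers -/

lemma mu_sq (n : ℕ) : mu n ^ 2 = if Squarefree n then 1 else 0 := by
  unfold mu
  split_ifs with h
  · have := ArithmeticFunction.moebius_sq_eq_one_of_squarefree h
    exact_mod_cast this
  · rw [ArithmeticFunction.moebius_eq_zero_of_not_squarefree h]
    simp

lemma tele (M : ℕ) : ∑ d ∈ Ico 3 (M + 3), (1 : ℝ) / ((d : ℝ) ^ 2) ≤ 1 / 2 - 1 / (M + 2) := by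
  induction M with
  | zero => norm_num
  | succ M ih =>
    have e : M + 1 + 3 = (M + 3) + 1 := by ring
    rw [e, Finset.sum_Ico_succ_top (by omega)]
    have h1 : (1 : ℝ) / (((M + 3 : ℕ) : ℝ) ^ 2) ≤ 1 / ((M : ℝ) + 2) - 1 / ((M : ℝ) + 3) := by
      push_cast
      rw [div_sub_div _ _ (by positivity) (by positivity)]
      rw [div_le_div_iff₀ (by positivity) (by positivity)]
      have : (0 : ℝ) ≤ M := by positivity
      nlinarith
    have h2 : ((M + 1 : ℕ) : ℝ) + 2 = (M : ℝ) + 3 := by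
      push_cast
      ring
    rw [h2]
    linarith

lemma mult_count (d J : ℕ) : (((Ico 1 J).filter (fun l => d ∣ l)).card : ℝ) ≤ J / d := by
  have h1 : ((Ico 1 J).filter (fun l => d ∣ l)).card ≤ J / d := by
    rcases Nat.eq_zero_or_pos J with hJ | hJ
    · subst hJ
      simp
    have h2 : (Ico 1 J).filter (fun l => d ∣ l) ⊆ (Ioc 0 J).filter (fun l => d ∣ l) := by
      intro l hl
      rw [mem_filter, mem_Ico] at hl
      rw [mem_filter, mem_Ioc]
      exact ⟨⟨by omega, by omega⟩, hl.2⟩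
    calc _ ≤ ((Ioc 0 J).filter (fun l => d ∣ l)).card := Finset.card_le_card h2
      _ = J / d := Nat.Ioc_filter_dvd_card_eq_div J d
  calc (((Ico 1 J).filter (fun l => d ∣ l)).card : ℝ) ≤ ((J / d : ℕ) : ℝ) := by exact_mod_cast h1
    _ ≤ J / d := Nat.cast_div_le

lemma sqfree_lower (J : ℕ) : (J : ℝ) / 4 - 1 ≤ ∑ l ∈ range J, mu l ^ 2 := by
  classical
  rcases Nat.eq_zero_or_pos J with hJ | hJ
  · subst hJ
    simp
  have h0 : ∑ l ∈ range J, mu l ^ 2 = (((range J).filter (fun l => Squarefree l)).card : ℝ) := by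
    rw [Finset.sum_congr rfl (fun l _ => mu_sq l)]
    simp
  rw [h0]
  have h1 : (Ico 1 J) ⊆ ((range J).filter (fun l => Squarefree l)) ∪
      (((Ico 1 J).filter (fun l => 4 ∣ l)) ∪
        (Ico 3 (J + 3)).biUnion (fun d => (Ico 1 J).filter (fun l => d ^ 2 ∣ l))) := by
    intro l hl
    have hl' := mem_Ico.mp hl
    by_cases hsq : Squarefree l
    · rw [mem_union]
      left
      rw [mem_filter, mem_range]
      exact ⟨hl'.2, hsq⟩
    · rw [mem_union]
      right
      rw [Nat.squarefree_iff_prime_squarefree] at hsq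
      push Not at hsq
      obtain ⟨p, hp, hpl⟩ := hsq
      rw [mem_union]
      by_cases hp2 : p = 2
      · left
        rw [mem_filter]
        refine ⟨hl, ?_⟩
        rw [hp2] at hpl
        exact hpl
      · right
        rw [mem_biUnion]
        have hp3 : 3 ≤ p := by
          have := hp.two_le
          omega
        refine ⟨p, ?_, ?_⟩
        · rw [mem_Ico]
          refine ⟨hp3, ?_⟩
          have h2 : p ≤ l := Nat.le_of_dvd (by omega) (dvd_trans (Dvd.intro _ rfl) hpl)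
          omega
        · rw [mem_filter, sq]
          exact ⟨hl, hpl⟩
  have h2 : ((Ico 1 J).card : ℝ) ≤ (((range J).filter (fun l => Squarefree l)).card : ℝ) +
      ((((Ico 1 J).filter (fun l => 4 ∣ l)).card : ℝ) +
        ∑ d ∈ Ico 3 (J + 3), (((Ico 1 J).filter (fun l => d ^ 2 ∣ l)).card : ℝ)) := by
    have h3 := Finset.card_le_card h1
    have h4 := Finset.card_union_le ((range J).filter (fun l => Squarefree l))
      (((Ico 1 J).filter (fun l => 4 ∣ l)) ∪
        (Ico 3 (J + 3)).biUnion (fun d => (Ico 1 J).filter (fun l => d ^ 2 ∣ l)))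
    have h5 := Finset.card_union_le ((Ico 1 J).filter (fun l => 4 ∣ l))
      ((Ico 3 (J + 3)).biUnion (fun d => (Ico 1 J).filter (fun l => d ^ 2 ∣ l)))
    have h6 : ((Ico 3 (J + 3)).biUnion (fun d => (Ico 1 J).filter (fun l => d ^ 2 ∣ l))).card ≤
      ∑ d ∈ Ico 3 (J + 3), ((Ico 1 J).filter (fun l => d ^ 2 ∣ l)).card := Finset.card_biUnion_le
    have h7 : (Ico 1 J).card ≤ ((range J).filter (fun l => Squarefree l)).card +
      (((Ico 1 J).filter (fun l => 4 ∣ l)).card +
        ∑ d ∈ Ico 3 (J + 3), ((Ico 1 J).filter (fun l => d ^ 2 ∣ l)).card) := by omega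
    exact_mod_cast h7
  have h3 : (((Ico 1 J).filter (fun l => 4 ∣ l)).card : ℝ) ≤ J / 4 := by
    have := mult_count 4 J
    exact_mod_cast this
  have h4 : ∑ d ∈ Ico 3 (J + 3), (((Ico 1 J).filter (fun l => d ^ 2 ∣ l)).card : ℝ) ≤ J / 2 := by
    calc ∑ d ∈ Ico 3 (J + 3), (((Ico 1 J).filter (fun l => d ^ 2 ∣ l)).card : ℝ)
        ≤ ∑ d ∈ Ico 3 (J + 3), (J : ℝ) * (1 / (d : ℝ) ^ 2) := by
          apply Finset.sum_le_sum
          intro d hd
          rw [mem_Ico] at hd
          have := mult_count (d ^ 2) J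
          push_cast at this
          rw [mul_one_div]
          exact this
      _ = (J : ℝ) * ∑ d ∈ Ico 3 (J + 3), (1 / (d : ℝ) ^ 2) := by rw [Finset.mul_sum]
      _ ≤ (J : ℝ) * (1 / 2) := by
          apply mul_le_mul_of_nonneg_left _ (by positivity)
          have := tele J
          have h5 : (0 : ℝ) ≤ 1 / ((J : ℝ) + 2) := by positivity
          linarith
      _ = J / 2 := by ring
  have h5 : ((Ico 1 J).card : ℝ) = J - 1 := by
    rw [Nat.card_Ico, Nat.cast_sub (by omega)]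
    norm_num
  rw [h5] at h2
  linarith

/-! ### parameters -/

lemma exists_nk (hMax : MaximalMoebius) (δ : ℕ → ℝ) (hδ : ∀ k, 0 < δ k) :
    ∃ nk : ℕ → ℕ, StrictMono nk ∧ (∀ k, 2 * k ^ 2 ≤ nk k) ∧ ∀ k, 1 ≤ k → MaxAt nk δ k := by
  have h : ∀ k : ℕ, ∃ n₀ : ℕ, 1 ≤ k → ∀ (P : ℕ) (w : ℕ → ℝ),
    (∀ n, |w n| ≤ 1) → (∀ n, P ≤ n → w n = 0) →
    (({p : ℕ | p < P ∧ ∃ N : ℕ, n₀ ≤ N ∧
      1 / (2 * (k : ℝ)) * (N : ℝ) < |∑ n ∈ range N, w (p + n) * mu n|}.ncard : ℕ) : ℝ) ≤ δ k * (P : ℝ) := by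
    intro k
    by_cases hk : 1 ≤ k
    · have hkR : (0 : ℝ) < k := by exact_mod_cast hk
      obtain ⟨n₀, hn₀⟩ := hMax (1 / (2 * (k : ℝ))) (by positivity) (δ k) (hδ k)
      exact ⟨n₀, fun _ => hn₀⟩
    · exact ⟨0, fun h => absurd h hk⟩
  choose n₀ hn₀ using h
  let nk : ℕ → ℕ := fun k => Nat.rec (motive := fun _ => ℕ) (n₀ 0) (fun k v => v + 1 + 2 * (k + 1) ^ 2 + n₀ (k + 1)) k
  have hsucc : ∀ k, nk (k + 1) = nk k + 1 + 2 * (k + 1) ^ 2 + n₀ (k + 1) := fun k => rfl
  refine ⟨nk, ?_, ?_, ?_⟩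
  · apply strictMono_nat_of_lt_succ
    intro k
    rw [hsucc]
    omega
  · intro k
    cases k with
    | zero => simp
    | succ k =>
      rw [hsucc]
      omega
  · intro k hk P w hw hwP
    have hle : n₀ k ≤ nk k := by
      cases k with
      | zero => exact le_refl _
      | succ k =>
        rw [hsucc]
        omega
    refine le_trans ?_ (hn₀ k hk P w hw hwP)
    have hfin : ({p : ℕ | p < P ∧ ∃ N : ℕ, n₀ k ≤ N ∧
      1 / (2 * (k : ℝ)) * (N : ℝ) < |∑ n ∈ range N, w (p + n) * mu n|}).Finite :=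
      (Set.finite_lt_nat P).subset (fun p hp => hp.1)
    have hsub : {p : ℕ | p < P ∧ ∃ N : ℕ, nk k ≤ N ∧
      1 / (2 * (k : ℝ)) * (N : ℝ) < |∑ n ∈ range N, w (p + n) * mu n|} ⊆
      {p : ℕ | p < P ∧ ∃ N : ℕ, n₀ k ≤ N ∧
      1 / (2 * (k : ℝ)) * (N : ℝ) < |∑ n ∈ range N, w (p + n) * mu n|} := by
      rintro p ⟨h1, N, h2, h3⟩
      exact ⟨h1, N, le_trans hle h2, h3⟩
    exact_mod_cast Set.ncard_le_ncard hsub hfin

lemma fail_congr' {s : ℕ → List ℕ} {nk : ℕ → ℕ} {k j : ℕ} {y y' : ℕ → ℝ} {H : ℕ}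
    (hH : ∀ i < k, ∀ h ∈ s i, h ≤ H)
    (h : ∀ l, j + k ≤ l → l < j + nk (k + 1) + H → y l = y' l) :
    fail s nk k j y ↔ fail s nk k j y' := by
  unfold fail
  constructor
  · rintro ⟨i, hi, N, h1, h2, h3⟩
    refine ⟨i, hi, N, h1, h2, ?_⟩
    rw [← RT_congr (b := mono (s i) y)]
    · exact h3
    · intro n hn hn2
      apply mono_congr
      intro l hl
      have := hH i hi l hl
      exact h _ (by omega) (by omega)
  · rintro ⟨i, hi, N, h1, h2, h3⟩
    refine ⟨i, hi, N, h1, h2, ?_⟩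
    rw [RT_congr (b := mono (s i) y) (b' := mono (s i) y')]
    · exact h3
    · intro n hn hn2
      apply mono_congr
      intro l hl
      have := hH i hi l hl
      exact h _ (by omega) (by omega)

lemma exists_H (s : ℕ → List ℕ) : ∃ H : ℕ → ℕ, ∀ k, ∀ i < k, ∀ h ∈ s i, h ≤ H k := by
  refine ⟨fun k => ∑ i ∈ range k, (s i).sum, ?_⟩
  intro k i hi h hh
  calc h ≤ (s i).sum := List.le_sum_of_mem hh
    _ ≤ ∑ i ∈ range k, (s i).sum :=
        Finset.single_le_sum (f := fun i => (s i).sum) (fun _ _ => Nat.zero_le _) (mem_range.mpr hi)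

lemma block_of {Jf : ℕ → ℕ} (hJ0 : Jf 0 = 0) (hJmono : StrictMono Jf) (l : ℕ) :
    ∃ i, Jf i ≤ l ∧ l < Jf (i + 1) := by
  have haux : ∀ m, l < Jf m → ∃ i, Jf i ≤ l ∧ l < Jf (i + 1) := by
    intro m
    induction m with
    | zero => intro h; rw [hJ0] at h; omega
    | succ m ih =>
      intro h
      by_cases h1 : l < Jf m
      · exact ih h1
      · exact ⟨m, by omega, h⟩
  exact haux (l + 1) (lt_of_lt_of_le (Nat.lt_succ_self l) (hJmono.le_apply))

/-- the non Möbius disjoint point -/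
theorem exists_point (hMax : MaximalMoebius) {s : ℕ → List ℕ} (hs : ∀ i, s i ≠ []) :
    ∃ nk : ℕ → ℕ, StrictMono nk ∧ (∀ k, 2 * k ^ 2 ≤ nk k) ∧ ∃ x : ℕ → ℝ,
      (∀ l, x l = 0 ∨ x l = mu l) ∧
      (∀ k, 1 ≤ k → ∃ p₀, ∀ p, p₀ ≤ p → fail s nk k p x → ∀ l, p ≤ l → l < p + k → x l = 0) ∧
      (∀ n₀ : ℕ, ∃ N, n₀ ≤ N ∧ 1 ≤ N ∧ (N : ℝ) / 8 ≤ ∑ l ∈ range N, mu l * x l) := by
  set δ : ℕ → ℝ := fun k => 1 / (((k : ℝ) + 1) ^ 2 * (16 * 2 ^ k)) with hδ
  obtain ⟨nk, hmono, hnk2, hnk⟩ := exists_nk hMax δ (fun k => by rw [hδ]; positivity)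
  obtain ⟨H, hH⟩ := exists_H s
  -- total range
  set R : ℕ → ℕ := fun i => ∑ k ∈ range (i + 1), (nk (k + 1) + H k + k) with hR
  have hRk : ∀ i k, k ≤ i → nk (k + 1) + H k + k ≤ R i := by
    intro i k hk
    exact Finset.single_le_sum (f := fun k => nk (k + 1) + H k + k) (fun _ _ => Nat.zero_le _)
      (mem_range.mpr (by omega))
  let Jf : ℕ → ℕ := fun i => Nat.rec (motive := fun _ => ℕ) 0 (fun i v => 64 * (v + R (i + 1) + 1 + 1)) i
  have hJ0 : Jf 0 = 0 := rfl
  let Lf : ℕ → ℕ := fun i => Nat.casesOn (motive := fun _ => ℕ) i 0 (fun i => Jf i + R (i + 1) + 1)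
  have hL0 : Lf 0 = 0 := rfl
  have hLs : ∀ i, Lf (i + 1) = Jf i + R (i + 1) + 1 := fun i => rfl
  have hJs : ∀ i, Jf (i + 1) = 64 * (Lf (i + 1) + 1) := fun i => rfl
  have hJmono : StrictMono Jf := by
    apply strictMono_nat_of_lt_succ
    intro i
    rw [hJs, hLs]
    omega
  have hLJ : ∀ i, Lf i ≤ Jf i := by
    intro i
    cases i with
    | zero => exact le_refl _
    | succ i => rw [hJs]; omega
  have hLmono : Monotone Lf := by
    apply monotone_nat_of_le_succ
    intro i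
    have := hLJ i
    rw [hLs]
    omega
  have hLi : ∀ i, i ≤ Lf i := by
    intro i
    cases i with
    | zero => exact Nat.zero_le _
    | succ i =>
      have := hJmono.le_apply (x := i)
      rw [hLs]
      omega
  set x : ℕ → ℝ := fun l => ∑ i ∈ range (l + 1), win s nk (Lf i) (Jf i) i l with hx
  -- local description
  have hxeq : ∀ i l, Jf i ≤ l → l < Lf (i + 2) → x l = win s nk (Lf (i + 1)) (Jf (i + 1)) (i + 1) l := by
    intro i l h1 h2
    have hother : ∀ j, j ≠ i + 1 → win s nk (Lf j) (Jf j) j l = 0 := by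
      intro j hj
      apply win_out
      rintro ⟨h3, h4⟩
      rcases Nat.lt_or_gt_of_ne hj with h5 | h5
      · have := hJmono.monotone (by omega : j ≤ i)
        omega
      · have := hLmono (by omega : i + 2 ≤ j)
        omega
    rw [hx]
    simp only
    by_cases h3 : i + 1 ∈ range (l + 1)
    · rw [Finset.sum_eq_single_of_mem (i + 1) h3 (fun j _ hj => hother j hj)]
    · rw [Finset.sum_eq_zero]
      · rw [mem_range] at h3
        symm
        apply win_out
        rintro ⟨h4, _⟩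
        have := hLi (i + 1)
        omega
      · intro j hj
        apply hother
        rintro rfl
        exact h3 hj
  have hblock : ∀ l, ∃ i, Jf i ≤ l ∧ l < Jf (i + 1) := block_of hJ0 hJmono
  have hJL : ∀ i, Jf (i + 1) + R (i + 1) < Lf (i + 2) := by
    intro i
    have h0 : Lf (i + 2) = Jf (i + 1) + R (i + 1 + 1) + 1 := hLs (i + 1)
    have : R (i + 1) ≤ R (i + 1 + 1) := by
      rw [hR]
      simp only
      rw [Finset.sum_range_succ _ (i + 1 + 1)]
      omega
    omega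
  have hxor : ∀ l, x l = 0 ∨ x l = mu l := by
    intro l
    obtain ⟨i, h1, h2⟩ := hblock l
    rw [hxeq i l h1 (by have := hJL i; omega)]
    exact win_or _ _ _ _ _ _
  refine ⟨nk, hmono, hnk2, x, hxor, ?_, ?_⟩
  · -- failures
    intro k hk
    refine ⟨Jf k, ?_⟩
    intro p hp hfail l hpl hlp
    obtain ⟨i, h1, h2⟩ := hblock p
    have hki : k ≤ i := by
      by_contra hcon
      push Not at hcon
      have := hJmono.monotone (by omega : i + 1 ≤ k)
      omega
    have hJLi := hJL i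
    have hRi := hRk (i + 1) k (by omega)
    rw [fail_congr' (H := H k) (y' := win s nk (Lf (i + 1)) (Jf (i + 1)) (i + 1)) (hH k)] at hfail
    · rw [hxeq i l (by omega) (by omega)]
      exact win_zero_of_fail hk (by omega) hpl hlp hfail
    · intro l' hl' hl''
      exact hxeq i l' (by omega) (by omega)
  · -- correlation
    intro n₀
    refine ⟨Jf (n₀ + 1), ?_, ?_, ?_⟩
    · have := hJmono.le_apply (x := n₀ + 1)
      omega
    · have := hJmono.le_apply (x := n₀ + 1)
      omega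
    set i := n₀ with hi
    set L := Lf (i + 1) with hL
    set J := Jf (i + 1) with hJ
    have hJL2 : J = 64 * (L + 1) := hJs i
    have hpos : ∀ l, 0 ≤ mu l * x l := by
      intro l
      rcases hxor l with h | h
      · rw [h, mul_zero]
      · rw [h]
        exact mul_self_nonneg _
    classical
    set D : Finset ℕ := (Ico L J).filter (fun l => win s nk L J (i + 1) l ≠ mu l) with hD
    have hDc : (D.card : ℝ) ≤ J / 16 := by
      have h1 := erased_count hs (fun k _ => hnk2 k) hnk L J (i + 1) D (by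
        intro l hl
        rw [hD, mem_filter, mem_Ico] at hl
        exact ⟨hl.1.1, hl.1.2, hl.2⟩)
      refine le_trans h1 ?_
      have h2 : ∑ k ∈ Icc 1 (i + 1), (k : ℝ) ^ 2 * δ k ≤ ∑ k ∈ Icc 1 (i + 1), 1 / 16 * (1 / 2 : ℝ) ^ k := by
        apply Finset.sum_le_sum
        intro k _
        rw [hδ]
        calc (k : ℝ) ^ 2 * (1 / (((k : ℝ) + 1) ^ 2 * (16 * 2 ^ k)))
            ≤ ((k : ℝ) + 1) ^ 2 * (1 / (((k : ℝ) + 1) ^ 2 * (16 * 2 ^ k))) := by
              apply mul_le_mul_of_nonneg_right _ (by positivity)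
              exact pow_le_pow_left₀ (by positivity) (by linarith) 2
          _ = 1 / 16 * (1 / 2 : ℝ) ^ k := by
              rw [one_div_pow]
              field_simp
      have h3 : ∑ k ∈ Icc 1 (i + 1), 1 / 16 * (1 / 2 : ℝ) ^ k ≤ 1 / 16 := by
        rw [← Finset.mul_sum]
        have h4 : ∀ m : ℕ, ∑ k ∈ Icc 1 m, (1 / 2 : ℝ) ^ k = 1 - (1 / 2 : ℝ) ^ m := by
          intro m
          induction m with
          | zero => simp
          | succ m ih =>
            rw [Finset.sum_Icc_succ_top (by omega), ih, pow_succ]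
            ring
        rw [h4]
        have : (0 : ℝ) ≤ (1 / 2 : ℝ) ^ (i + 1) := by positivity
        linarith
      calc (J : ℝ) * _ ≤ J * (1 / 16) := by
            apply mul_le_mul_of_nonneg_left (le_trans h2 h3) (by positivity)
        _ = J / 16 := by ring
    have hLJ' : L ≤ J := by omega
    have hsum1 : ∑ l ∈ Ico L J, mu l ^ 2 ≤ ∑ l ∈ Ico L J, mu l * x l + D.card := by
      have e1 : (D.card : ℝ) = ∑ l ∈ Ico L J, if win s nk L J (i + 1) l ≠ mu l then (1 : ℝ) else 0 := by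
        rw [hD, Finset.sum_boole]
      rw [e1, ← Finset.sum_add_distrib]
      apply Finset.sum_le_sum
      intro l hl
      rw [mem_Ico] at hl
      have h1 : mu l ^ 2 ≤ 1 := by
        rw [mu_sq]
        split_ifs <;> norm_num
      have h2 : x l = win s nk L J (i + 1) l := by
        apply hxeq i l
        · have : L = Jf i + R (i + 1) + 1 := hLs i
          omega
        · have := hJL i
          omega
      by_cases h3 : win s nk L J (i + 1) l = mu l
      · rw [if_neg (by simpa using h3), h2, h3, add_zero, sq]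
      · rw [if_pos h3]
        have := hpos l
        linarith
    have hsum2 : ∑ l ∈ range J, mu l ^ 2 = ∑ l ∈ range L, mu l ^ 2 + ∑ l ∈ Ico L J, mu l ^ 2 :=
      (Finset.sum_range_add_sum_Ico _ hLJ').symm
    have hsum3 : ∑ l ∈ range J, mu l * x l = ∑ l ∈ range L, mu l * x l + ∑ l ∈ Ico L J, mu l * x l :=
      (Finset.sum_range_add_sum_Ico _ hLJ').symm
    have h4 : ∑ l ∈ range L, mu l ^ 2 ≤ L := by
      calc ∑ l ∈ range L, mu l ^ 2 ≤ ∑ l ∈ range L, (1 : ℝ) := by
            apply Finset.sum_le_sum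
            intro l _
            rw [mu_sq]
            split_ifs <;> norm_num
        _ = L := by simp
    have h5 : 0 ≤ ∑ l ∈ range L, mu l * x l := Finset.sum_nonneg (fun l _ => hpos l)
    have h6 := sqfree_lower J
    have h7 : (J : ℝ) = 64 * (L + 1) := by
      rw [hJL2]
      push_cast
      ring
    linarith

end Pool.Agent.Helper25.Dyn
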