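import Mathlib
import Pool.Agent.Helper25.Dyn.Point

set_option autoImplicit false

namespace Pool.Agent.Helper25.Dyn

open Finset Pool.Agent.MobQ Filter Topology

/-- `z` is a limit of shifts of `x` by arbitrarily large amounts (discrete alphabet) -/
def IsLim (x z : ℕ → ℝ) : Prop := ∀ H n₀ : ℕ, ∃ p, n₀ ≤ p ∧ ∀ l < H, x (p + l) = z l

lemma mono_shift {s : List ℕ} {x z : ℕ → ℝ} {p n : ℕ} (h : ∀ l ∈ s, x (p + (n + l)) = z (n + l)) :
    mono s z n = mono s x (p + n) := by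
  unfold mono
  congr 1
  apply List.map_congr_left
  intro l hl
  rw [← h l hl, add_assoc]

lemma fail_shift {s : ℕ → List ℕ} {nk : ℕ → ℕ} {k p : ℕ} {x z : ℕ → ℝ} {H : ℕ}
    (hH : ∀ i < k, ∀ h ∈ s i, h ≤ H)
    (h : ∀ l, l < nk (k + 1) + H → x (p + l) = z l) (hf : fail s nk k 0 z) : fail s nk k p x := by
  obtain ⟨i, hi, N, h1, h2, h3⟩ := hf
  refine ⟨i, hi, N, h1, h2, ?_⟩
  have : RT k (mono (s i) x) N p = RT k (mono (s i) z) N 0 := by
    unfold RT
    apply Finset.sum_congr rfl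
    intro n hn
    rw [mem_Ico] at hn
    have e : mono (s i) z n = mono (s i) x (p + n) := by
      apply mono_shift
      intro l hl
      have := hH i hi l hl
      exact h _ (by omega)
    rw [zero_add, e]
  rw [this]
  exact h3

lemma lim_dichotomy {s : ℕ → List ℕ} {nk : ℕ → ℕ} {x z : ℕ → ℝ} (hz : IsLim x z)
    (hx : ∀ k, 1 ≤ k → ∃ p₀, ∀ p, p₀ ≤ p → fail s nk k p x → ∀ l, p ≤ l → l < p + k → x l = 0)
    {k : ℕ} (hk : 1 ≤ k) (hf : fail s nk k 0 z) : ∀ l < k, z l = 0 := by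
  obtain ⟨H, hH⟩ := exists_H s
  obtain ⟨p₀, hp₀⟩ := hx k hk
  obtain ⟨p, hp, hpz⟩ := hz (nk (k + 1) + H k + k) p₀
  have h1 : fail s nk k p x := fail_shift (hH k) (fun l hl => hpz l (by omega)) hf
  intro l hl
  have h2 := hp₀ p hp h1 (p + l) (by omega) (by omega)
  rw [hpz l (by omega)] at h2
  exact h2

/-- limit points are Möbius disjoint on monomials -/
theorem lim_disjoint {s : ℕ → List ℕ} {nk : ℕ → ℕ} (hmono : StrictMono nk)
    (hnk : ∀ k, 2 * k ^ 2 ≤ nk k) {x z : ℕ → ℝ} (hz : IsLim x z) (hz1 : ∀ l, |z l| ≤ 1)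
    (hx : ∀ k, 1 ≤ k → ∃ p₀, ∀ p, p₀ ≤ p → fail s nk k p x → ∀ l, p ≤ l → l < p + k → x l = 0)
    (i : ℕ) (hsi : s i ≠ []) :
    ∀ ε : ℝ, 0 < ε → ∃ N₀ : ℕ, ∀ N, N₀ ≤ N → |∑ n ∈ range N, mu n * mono (s i) z n| ≤ ε * N := by
  by_cases hz0 : ∀ l, z l = 0
  · intro ε hε
    refine ⟨0, fun N _ => ?_⟩
    have : ∑ n ∈ range N, mu n * mono (s i) z n = 0 := by
      apply Finset.sum_eq_zero
      intro n _
      rw [mono_zero (J := 0) hsi (fun l _ => hz0 l) (Nat.zero_le _), mul_zero]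
    rw [this, abs_zero]
    positivity
  · push Not at hz0
    obtain ⟨l₀, hl₀⟩ := hz0
    have hpass : ∀ k, l₀ < k → ¬ fail s nk k 0 z := by
      intro k hk hf
      exact hl₀ (lim_dichotomy hz hx (by omega) hf l₀ hk)
    intro ε hε
    obtain ⟨k₁, hk₁⟩ := exists_nat_gt (2 / ε)
    set k₀ := k₁ + l₀ + i + 1 with hk₀
    refine ⟨nk k₀, ?_⟩
    intro N hN
    -- find the level of `N`
    have hlev : ∃ k, k₀ ≤ k ∧ nk k ≤ N ∧ N < nk (k + 1) := by
      have haux : ∀ m, N < nk (k₀ + m) → ∃ k, k₀ ≤ k ∧ nk k ≤ N ∧ N < nk (k + 1) := by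
        intro m
        induction m with
        | zero => intro h; rw [add_zero] at h; omega
        | succ m ih =>
          intro h
          by_cases h1 : N < nk (k₀ + m)
          · exact ih h1
          · exact ⟨k₀ + m, by omega, by omega, h⟩
      apply haux (N + 1)
      have := hmono.le_apply (x := k₀ + (N + 1))
      omega
    obtain ⟨k, hk1, hk2, hk3⟩ := hlev
    have hp := hpass k (by omega)
    unfold fail at hp
    push Not at hp
    have h1 := hp i (by omega) N hk2 hk3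
    have hkR : (1 : ℝ) ≤ k := by exact_mod_cast (by omega : 1 ≤ k)
    have hkpos : (0 : ℝ) < k := by linarith
    have hNk : (2 : ℝ) * (k : ℝ) ^ 2 ≤ N := by
      have : 2 * k ^ 2 ≤ N := le_trans (hnk k) hk2
      exact_mod_cast this
    have hkN : k ≤ N := by
      have h2 : k ≤ k ^ 2 := Nat.le_self_pow (by norm_num) k
      have := le_trans (hnk k) hk2
      omega
    have h2 := RS_sub_RT (abs_mono_le (s := s i) hz1) (k := k) (N := N) (j := 0) hkN
    have h3 : (k : ℝ) ≤ 1 / (k : ℝ) * (N : ℝ) := by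
      rw [div_mul_eq_mul_div, one_mul, le_div_iff₀ hkpos]
      have : (0 : ℝ) ≤ (k : ℝ) ^ 2 := by positivity
      nlinarith
    have h4 : 2 / (k : ℝ) ≤ ε := by
      have h5 : 2 / ε < k := by
        have : (k₁ : ℝ) ≤ k := by exact_mod_cast (by omega : k₁ ≤ k)
        linarith
      rw [div_lt_iff₀ hε] at h5
      rw [div_le_iff₀ hkpos]
      linarith
    have h5 : |RS (mono (s i) z) N 0| ≤ |RT k (mono (s i) z) N 0| +
        |RS (mono (s i) z) N 0 - RT k (mono (s i) z) N 0| := by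
      calc |RS (mono (s i) z) N 0| = |RT k (mono (s i) z) N 0 +
          (RS (mono (s i) z) N 0 - RT k (mono (s i) z) N 0)| := by
            congr 1
            ring
        _ ≤ _ := abs_add_le _ _
    have e : ∑ n ∈ range N, mu n * mono (s i) z n = RS (mono (s i) z) N 0 := by
      unfold RS
      simp
    rw [e]
    calc |RS (mono (s i) z) N 0| ≤ 1 / (k : ℝ) * (N : ℝ) + 1 / (k : ℝ) * (N : ℝ) := by
          linarith
      _ = 2 / (k : ℝ) * (N : ℝ) := by ring
      _ ≤ ε * (N : ℝ) := mul_le_mul_of_nonneg_right h4 (by positivity)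

/-- the constant function -/
lemma const_disjoint (hMax : MaximalMoebius) :
    ∀ ε : ℝ, 0 < ε → ∃ N₀ : ℕ, ∀ N, N₀ ≤ N → |∑ n ∈ range N, mu n| ≤ ε * N := by
  intro ε hε
  obtain ⟨N₀, hN₀⟩ := hMax ε hε (1 / 2) (by norm_num)
  refine ⟨max N₀ 1, ?_⟩
  intro N hN
  by_contra hcon
  push Not at hcon
  have hN1 : 1 ≤ N := le_trans (le_max_right _ _) hN
  have hN0 : N₀ ≤ N := le_trans (le_max_left _ _) hN
  have h := hN₀ (4 * N) (fun n => if n < 4 * N then 1 else 0) (by
    intro n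
    split_ifs <;> simp) (by
    intro n hn
    rw [if_neg (by omega)])
  have hsub : ((Finset.range (3 * N) : Finset ℕ) : Set ℕ) ⊆ {p : ℕ | p < 4 * N ∧ ∃ M : ℕ, N₀ ≤ M ∧
      ε * (M : ℝ) < |∑ n ∈ range M, (fun n => if n < 4 * N then (1 : ℝ) else 0) (p + n) * mu n|} := by
    intro p hp
    rw [Finset.mem_coe, mem_range] at hp
    refine ⟨by omega, N, hN0, ?_⟩
    have : ∑ n ∈ range N, (fun n => if n < 4 * N then (1 : ℝ) else 0) (p + n) * mu n
        = ∑ n ∈ range N, mu n := by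
      apply Finset.sum_congr rfl
      intro n hn
      rw [mem_range] at hn
      simp only
      rw [if_pos (by omega), one_mul]
    rw [this]
    exact hcon
  have hfin : ({p : ℕ | p < 4 * N ∧ ∃ M : ℕ, N₀ ≤ M ∧
      ε * (M : ℝ) < |∑ n ∈ range M, (fun n => if n < 4 * N then (1 : ℝ) else 0) (p + n) * mu n|}).Finite :=
      (Set.finite_lt_nat (4 * N)).subset (fun p hp => hp.1)
  have h2 := Set.ncard_le_ncard hsub hfin
  rw [Set.ncard_coe_finset, card_range] at h2
  have h3 : ((3 * N : ℕ) : ℝ) ≤ 1 / 2 * ((4 * N : ℕ) : ℝ) := le_trans (by exact_mod_cast h2) h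
  push_cast at h3
  have : (1 : ℝ) ≤ N := by exact_mod_cast hN1
  linarith

end Pool.Agent.Helper25.Dyn
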