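import Mathlib

set_option autoImplicit false

namespace Pool.Agent.Helper25.Dyn

open MeasureTheory Set

section

variable {X X' : Type} [TopologicalSpace X] [MeasurableSpace X] [BorelSpace X]
  [TopologicalSpace X'] [MeasurableSpace X'] [BorelSpace X']

/-- an invariant probability measure lives where a strictly decreasing function vanishes -/
lemma ae_zero {T' : X' → X'} (r : X' → ℝ) (hr : Continuous r) (hr0 : ∀ y, 0 ≤ r y)
    (hr1 : ∀ y, r y ≤ 1) (hrT : ∀ y, r (T' y) = r y / 2) (ν : Measure X') [IsProbabilityMeasure ν]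
    (hν : MeasurePreserving T' ν ν) : ∀ᵐ y ∂ν, r y = 0 := by
  have hgm : Measurable (fun y => ENNReal.ofReal (r y)) := hr.measurable.ennreal_ofReal
  have h1 := hν.lintegral_comp hgm
  have h2 : ∫⁻ a, ENNReal.ofReal (r (T' a)) ∂ν = (∫⁻ b, ENNReal.ofReal (r b) ∂ν) / 2 := by
    have : ∀ a, ENNReal.ofReal (r (T' a)) = ENNReal.ofReal (r a) * (2 : ENNReal)⁻¹ := by
      intro a
      rw [hrT, div_eq_mul_inv, ENNReal.ofReal_mul (hr0 a), ENNReal.ofReal_inv_of_pos (by norm_num)]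
      congr 2
      norm_num
    simp only [this]
    rw [lintegral_mul_const _ hgm]
    rfl
  have h3 : ∫⁻ b, ENNReal.ofReal (r b) ∂ν ≤ 1 := by
    calc ∫⁻ b, ENNReal.ofReal (r b) ∂ν ≤ ∫⁻ _, 1 ∂ν := by
          apply lintegral_mono
          intro b
          exact ENNReal.ofReal_le_one.mpr (hr1 b)
      _ = 1 := by simp
  have h4 : ∫⁻ b, ENNReal.ofReal (r b) ∂ν = 0 := by
    set I := ∫⁻ b, ENNReal.ofReal (r b) ∂ν with hI
    have h5 : I / 2 = I := by rw [← h2, h1]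
    by_contra hne
    have h6 : I ≠ ⊤ := ne_of_lt (lt_of_le_of_lt h3 ENNReal.one_lt_top)
    have h7 := ENNReal.half_lt_self hne h6
    rw [h5] at h7
    exact lt_irrefl _ h7
  rw [lintegral_eq_zero_iff hgm] at h4
  filter_upwards [h4] with y hy
  have : r y ≤ 0 := by
    simpa using hy
  exact le_antisymm this (hr0 y)

variable {ι : X → X'} (hι : Topology.IsClosedEmbedding ι)
  {T : X → X} {T' : X' → X'} (hT : Measurable T) (hT' : Measurable T')
  (hcomm : ∀ x, ι (T x) = T' (ι x)) (x₀ : X)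

include hι hT hT' hcomm x₀

lemma match_up (μ : Measure X) (hμ : IsProbabilityMeasure μ) (hinv : MeasurePreserving T μ μ) :
    ∃ ν : Measure X', IsProbabilityMeasure ν ∧ MeasurePreserving T' ν ν ∧
        ∃ φ : X → X', ∃ ψ : X' → X, MeasurePreserving φ μ ν ∧ MeasurePreserving ψ ν μ ∧
          (∀ᵐ x ∂μ, φ (T x) = T' (φ x)) ∧ (∀ᵐ x ∂μ, ψ (φ x) = x) ∧
          (∀ᵐ y ∂ν, φ (ψ y) = y) := by
  have hme : MeasurableEmbedding ι := hι.measurableEmbedding
  obtain ⟨ψ, hψ, hψι⟩ := hme.exists_measurable_extend measurable_id (fun _ => ⟨x₀⟩)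
  have hψι' : ∀ x, ψ (ι x) = x := fun x => congrFun hψι x
  refine ⟨μ.map ι, Measure.isProbabilityMeasure_map hme.measurable.aemeasurable, ?_, ι, ψ,
    ⟨hme.measurable, rfl⟩, ?_, ?_, ?_, ?_⟩
  · refine ⟨hT', ?_⟩
    rw [Measure.map_map hT' hme.measurable]
    have : T' ∘ ι = ι ∘ T := by
      funext x
      exact (hcomm x).symm
    rw [this, ← Measure.map_map hme.measurable hT, hinv.map_eq]
  · refine ⟨hψ, ?_⟩
    rw [Measure.map_map hψ hme.measurable]
    have : ψ ∘ ι = id := hψι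
    rw [this, Measure.map_id]
  · exact Filter.Eventually.of_forall hcomm
  · exact Filter.Eventually.of_forall hψι'
  · rw [hme.ae_map_iff]
    exact Filter.Eventually.of_forall (fun x => by rw [hψι'])

lemma match_down (r : X' → ℝ) (hr : Continuous r) (hr0 : ∀ y, 0 ≤ r y)
    (hr1 : ∀ y, r y ≤ 1) (hrT : ∀ y, r (T' y) = r y / 2) (hrι : ∀ y, r y = 0 → y ∈ range ι)
    (ν : Measure X') (hν : IsProbabilityMeasure ν) (hinv : MeasurePreserving T' ν ν) :
    ∃ μ : Measure X, IsProbabilityMeasure μ ∧ MeasurePreserving T μ μ ∧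
        ∃ φ : X → X', ∃ ψ : X' → X, MeasurePreserving φ μ ν ∧ MeasurePreserving ψ ν μ ∧
          (∀ᵐ x ∂μ, φ (T x) = T' (φ x)) ∧ (∀ᵐ x ∂μ, ψ (φ x) = x) ∧
          (∀ᵐ y ∂ν, φ (ψ y) = y) := by
  have hme : MeasurableEmbedding ι := hι.measurableEmbedding
  obtain ⟨ψ, hψ, hψι⟩ := hme.exists_measurable_extend measurable_id (fun _ => ⟨x₀⟩)
  have hψι' : ∀ x, ψ (ι x) = x := fun x => congrFun hψι x
  have hae : ∀ᵐ y ∂ν, y ∈ range ι := by
    filter_upwards [ae_zero r hr hr0 hr1 hrT ν hinv] with y hy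
    exact hrι y hy
  have hιψ : ∀ᵐ y ∂ν, ι (ψ y) = y := by
    filter_upwards [hae] with y hy
    obtain ⟨x, rfl⟩ := hy
    rw [hψι']
  have hmap : (ν.map ψ).map ι = ν := by
    rw [Measure.map_map hme.measurable hψ]
    have : (ι ∘ ψ) =ᵐ[ν] id := hιψ
    rw [Measure.map_congr this, Measure.map_id]
  refine ⟨ν.map ψ, Measure.isProbabilityMeasure_map hψ.aemeasurable, ?_, ι, ψ,
    ⟨hme.measurable, hmap⟩, ⟨hψ, rfl⟩, ?_, ?_, hιψ⟩
  · refine ⟨hT, ?_⟩
    rw [Measure.map_map hT hψ]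
    have h1 : (T ∘ ψ) =ᵐ[ν] (ψ ∘ T') := by
      filter_upwards [hae] with y hy
      obtain ⟨x, rfl⟩ := hy
      simp only [Function.comp_apply]
      rw [hψι', ← hcomm, hψι']
    rw [Measure.map_congr h1, ← Measure.map_map hψ hT', hinv.map_eq]
  · exact Filter.Eventually.of_forall hcomm
  · exact Filter.Eventually.of_forall hψι'

end

end Pool.Agent.Helper25.Dyn
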