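import Mathlib
import Pool.Agent.Helper25.Dyn.Limit

set_option autoImplicit false

namespace Pool.Agent.Helper25.Dyn

open Finset Pool.Agent.MobQ Filter Topology

/-- small averages against the Möbius function -/
def Small (a : ℕ → ℝ) : Prop :=
  ∀ ε : ℝ, 0 < ε → ∃ N₀ : ℕ, ∀ N, N₀ ≤ N → |∑ n ∈ range N, mu n * a n| ≤ ε * N

lemma Small.add {a b : ℕ → ℝ} (ha : Small a) (hb : Small b) : Small (fun n => a n + b n) := by
  intro ε hε
  obtain ⟨N₁, h1⟩ := ha (ε / 2) (by positivity)
  obtain ⟨N₂, h2⟩ := hb (ε / 2) (by positivity)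
  refine ⟨max N₁ N₂, fun N hN => ?_⟩
  have e1 := h1 N (le_trans (le_max_left _ _) hN)
  have e2 := h2 N (le_trans (le_max_right _ _) hN)
  have e3 : ∑ n ∈ range N, mu n * (a n + b n)
      = ∑ n ∈ range N, mu n * a n + ∑ n ∈ range N, mu n * b n := by
    rw [← Finset.sum_add_distrib]
    exact Finset.sum_congr rfl (fun n _ => by ring)
  rw [e3]
  calc _ ≤ |∑ n ∈ range N, mu n * a n| + |∑ n ∈ range N, mu n * b n| := abs_add_le _ _
    _ ≤ ε / 2 * N + ε / 2 * N := add_le_add e1 e2
    _ = ε * N := by ring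

lemma Small.smul {a : ℕ → ℝ} (ha : Small a) (c : ℝ) : Small (fun n => c * a n) := by
  intro ε hε
  obtain ⟨N₁, h1⟩ := ha (ε / (|c| + 1)) (by positivity)
  refine ⟨N₁, fun N hN => ?_⟩
  have e1 := h1 N hN
  have e3 : ∑ n ∈ range N, mu n * (c * a n) = c * ∑ n ∈ range N, mu n * a n := by
    rw [Finset.mul_sum]
    exact Finset.sum_congr rfl (fun n _ => by ring)
  rw [e3, abs_mul]
  calc |c| * |∑ n ∈ range N, mu n * a n| ≤ |c| * (ε / (|c| + 1) * N) :=
        mul_le_mul_of_nonneg_left e1 (abs_nonneg _)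
    _ = (|c| / (|c| + 1)) * (ε * N) := by ring
    _ ≤ 1 * (ε * N) := by
        apply mul_le_mul_of_nonneg_right _ (by positivity)
        rw [div_le_one (by positivity)]
        linarith
    _ = ε * N := one_mul _

lemma Small.approx {a : ℕ → ℝ} (h : ∀ ε : ℝ, 0 < ε → ∃ b : ℕ → ℝ, Small b ∧ ∀ n, |b n - a n| ≤ ε) :
    Small a := by
  intro ε hε
  obtain ⟨b, hb, hab⟩ := h (ε / 2) (by positivity)
  obtain ⟨N₁, h1⟩ := hb (ε / 2) (by positivity)
  refine ⟨N₁, fun N hN => ?_⟩
  have e1 := h1 N hN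
  have e3 : ∑ n ∈ range N, mu n * a n
      = ∑ n ∈ range N, mu n * b n + -(∑ n ∈ range N, mu n * (b n - a n)) := by
    rw [← sub_eq_add_neg, ← Finset.sum_sub_distrib]
    exact Finset.sum_congr rfl (fun n _ => by ring)
  rw [e3]
  calc _ ≤ |∑ n ∈ range N, mu n * b n| + |-(∑ n ∈ range N, mu n * (b n - a n))| := abs_add_le _ _
    _ ≤ ε / 2 * N + ε / 2 * N := by
        apply add_le_add e1
        rw [abs_neg]
        calc |∑ n ∈ range N, mu n * (b n - a n)| ≤ ∑ n ∈ range N, |mu n * (b n - a n)| :=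
              Finset.abs_sum_le_sum_abs _ _
          _ ≤ ∑ n ∈ range N, ε / 2 := by
              apply Finset.sum_le_sum
              intro n _
              rw [abs_mul]
              calc |mu n| * |b n - a n| ≤ 1 * (ε / 2) :=
                    mul_le_mul (abs_mu_le n) (hab n) (abs_nonneg _) (by norm_num)
                _ = ε / 2 := one_mul _
          _ = ε / 2 * N := by simp [mul_comm]
    _ = ε * N := by ring

lemma Small.tendsto {a b : ℕ → ℝ} (ha : Small a) (hb : Small b) :
    Tendsto (fun N : ℕ => (N : ℂ)⁻¹ * ∑ n ∈ range N,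
      ((ArithmeticFunction.moebius n : ℤ) : ℂ) * ((a n : ℂ) + (b n : ℂ) * Complex.I)) atTop (𝓝 0) := by
  rw [Metric.tendsto_atTop]
  intro ε hε
  obtain ⟨N₁, h1⟩ := ha (ε / 3) (by positivity)
  obtain ⟨N₂, h2⟩ := hb (ε / 3) (by positivity)
  refine ⟨max 1 (max N₁ N₂), fun N hN => ?_⟩
  have hN1 : 1 ≤ N := le_trans (le_max_left _ _) hN
  have e1 := h1 N (le_trans (le_max_left _ _) (le_trans (le_max_right _ _) hN))
  have e2 := h2 N (le_trans (le_max_right _ _) (le_trans (le_max_right _ _) hN))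
  have hNpos : (0 : ℝ) < N := by exact_mod_cast hN1
  rw [dist_zero_right]
  have e3 : ∑ n ∈ range N, ((ArithmeticFunction.moebius n : ℤ) : ℂ) *
      ((a n : ℂ) + (b n : ℂ) * Complex.I)
      = ((∑ n ∈ range N, mu n * a n : ℝ) : ℂ) + ((∑ n ∈ range N, mu n * b n : ℝ) : ℂ) * Complex.I := by
    push_cast
    rw [Finset.sum_mul, ← Finset.sum_add_distrib]
    apply Finset.sum_congr rfl
    intro n _
    unfold mu
    push_cast
    ring
  rw [e3, norm_mul, norm_inv, Complex.norm_natCast]
  have e4 : ‖((∑ n ∈ range N, mu n * a n : ℝ) : ℂ) +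
      ((∑ n ∈ range N, mu n * b n : ℝ) : ℂ) * Complex.I‖ ≤ ε / 3 * N + ε / 3 * N := by
    calc _ ≤ ‖((∑ n ∈ range N, mu n * a n : ℝ) : ℂ)‖ +
          ‖((∑ n ∈ range N, mu n * b n : ℝ) : ℂ) * Complex.I‖ := norm_add_le _ _
      _ ≤ _ := by
        rw [norm_mul, Complex.norm_I, mul_one, Complex.norm_real, Complex.norm_real,
          Real.norm_eq_abs, Real.norm_eq_abs]
        exact add_le_add e1 e2
  calc (N : ℝ)⁻¹ * _ ≤ (N : ℝ)⁻¹ * (ε / 3 * N + ε / 3 * N) :=
        mul_le_mul_of_nonneg_left e4 (by positivity)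
    _ = 2 * ε / 3 := by
        field_simp
        ring
    _ < ε := by linarith

/-- monomial in coordinate functions -/
noncomputable def monoC {X : Type} [TopologicalSpace X] (c : ℕ → C(X, ℝ)) (s : List ℕ) : C(X, ℝ) :=
  (s.map c).prod

lemma monoC_apply {X : Type} [TopologicalSpace X] (c : ℕ → C(X, ℝ)) (s : List ℕ) (p : X) :
    monoC c s p = (s.map (fun h => c h p)).prod := by
  unfold monoC
  induction s with
  | nil => simp
  | cons a t ih =>
    rw [List.map_cons, List.prod_cons, ContinuousMap.mul_apply, ih, List.map_cons, List.prod_cons]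

lemma mem_closure_mono {X : Type} [TopologicalSpace X] (c : ℕ → C(X, ℝ)) {g : C(X, ℝ)}
    (hg : g ∈ Submonoid.closure (Set.range c)) : ∃ s : List ℕ, g = monoC c s := by
  induction hg using Submonoid.closure_induction with
  | mem x hx =>
    obtain ⟨h, rfl⟩ := hx
    exact ⟨[h], by simp [monoC]⟩
  | one => exact ⟨[], by simp [monoC]⟩
  | mul x y _ _ hx hy =>
    obtain ⟨s, rfl⟩ := hx
    obtain ⟨t, rfl⟩ := hy
    exact ⟨s ++ t, by simp [monoC]⟩

/-- if all monomials are disjoint from Möbius along the orbit of `p`, so is every function -/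
theorem small_of_mono {X : Type} [TopologicalSpace X] [CompactSpace X] {T : X → X}
    (c : ℕ → C(X, ℝ)) (hsep : ∀ p p' : X, (∀ h, c h p = c h p') → p = p') (p : X)
    (hmono : ∀ s : List ℕ, Small (fun n => (s.map (fun h => c h (T^[n] p))).prod))
    (f : C(X, ℝ)) : Small (fun n => f (T^[n] p)) := by
  set A : Subalgebra ℝ C(X, ℝ) := Algebra.adjoin ℝ (Set.range c) with hA
  have hAsep : A.SeparatesPoints := by
    intro x y hxy
    by_contra hcon
    push Not at hcon
    apply hxy
    apply hsep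
    intro h
    exact hcon (c h) ⟨c h, Algebra.subset_adjoin ⟨h, rfl⟩, rfl⟩
  have hAsmall : ∀ g ∈ A, Small (fun n => g (T^[n] p)) := by
    intro g hg
    have hg' : g ∈ Subalgebra.toSubmodule A := hg
    rw [hA, Algebra.adjoin_eq_span] at hg'
    induction hg' using Submodule.span_induction with
    | mem x hx =>
      obtain ⟨s, rfl⟩ := mem_closure_mono c hx
      have := hmono s
      simp only [monoC_apply]
      exact this
    | zero =>
      intro ε hε
      refine ⟨0, fun N _ => ?_⟩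
      simp
      positivity
    | add x y hx hy ihx ihy =>
      have h1 : x ∈ A := by
        have : x ∈ Subalgebra.toSubmodule A := by rw [hA, Algebra.adjoin_eq_span]; exact hx
        exact this
      have h2 : y ∈ A := by
        have : y ∈ Subalgebra.toSubmodule A := by rw [hA, Algebra.adjoin_eq_span]; exact hy
        exact this
      exact (ihx h1).add (ihy h2)
    | smul a x hx ihx =>
      have h1 : x ∈ A := by
        have : x ∈ Subalgebra.toSubmodule A := by rw [hA, Algebra.adjoin_eq_span]; exact hx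
        exact this
      exact (ihx h1).smul a
  apply Small.approx
  intro ε hε
  obtain ⟨g, hg⟩ := ContinuousMap.exists_mem_subalgebra_near_continuousMap_of_separatesPoints
    A hAsep f ε hε
  refine ⟨fun n => (g : C(X, ℝ)) (T^[n] p), hAsmall _ g.2, fun n => ?_⟩
  have h1 := ContinuousMap.norm_coe_le_norm ((g : C(X, ℝ)) - f) (T^[n] p)
  rw [Real.norm_eq_abs] at h1
  exact le_trans h1 hg.le

end Pool.Agent.Helper25.Dyn
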