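import Mathlib
import Pool.Agent.Helper25.Dyn.Stone
import Pool.Agent.Helper25.Dyn.Meas

set_option autoImplicit false

namespace Pool.Agent.Helper25.Dyn

open Finset Pool.Agent.MobQ Filter Topology MeasureTheory

/-- ambient space: sequences of signs, and a real coordinate recording the time -/
abbrev Om : Type := (ℕ → SignType) × ℝ

/-- shift on the first coordinate, halving on the second -/
noncomputable def shT (p : Om) : Om := (fun l => p.1 (l + 1), p.2 / 2)

lemma continuous_shT : Continuous shT := by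
  unfold shT
  apply Continuous.prodMk
  · apply continuous_pi
    intro l
    exact (continuous_apply (l + 1)).comp continuous_fst
  · exact continuous_snd.div_const 2

/-- orbit -/
noncomputable def orb (x : ℕ → SignType) (n : ℕ) : Om := (fun l => x (n + l), (1 / 2 : ℝ) ^ n)

lemma shT_orb (x : ℕ → SignType) (n : ℕ) : shT (orb x n) = orb x (n + 1) := by
  unfold shT orb
  refine Prod.ext ?_ ?_
  · funext l
    exact congrArg x (by ring)
  · simp only
    rw [pow_succ]
    ring

/-- orbit closure -/
def S1 (x : ℕ → SignType) : Set Om := closure (Set.range (orb x))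

/-- its part at time infinity -/
def S0 (x : ℕ → SignType) : Set Om := {p | p ∈ S1 x ∧ p.2 = 0}

lemma isClosed_S1 (x : ℕ → SignType) : IsClosed (S1 x) := isClosed_closure

lemma S1_sub (x : ℕ → SignType) : S1 x ⊆ Set.univ ×ˢ Set.Icc (0 : ℝ) 1 := by
  apply closure_minimal
  · rintro p ⟨n, rfl⟩
    refine ⟨Set.mem_univ _, ?_, ?_⟩
    · unfold orb
      positivity
    · unfold orb
      exact pow_le_one₀ (by norm_num) (by norm_num)
  · exact isClosed_univ.prod isClosed_Icc

lemma isCompact_S1 (x : ℕ → SignType) : IsCompact (S1 x) := by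
  apply IsCompact.of_isClosed_subset _ (isClosed_S1 x) (S1_sub x)
  exact isCompact_univ.prod isCompact_Icc

lemma isClosed_S0 (x : ℕ → SignType) : IsClosed (S0 x) := by
  have : S0 x = S1 x ∩ {p | p.2 = 0} := rfl
  rw [this]
  exact (isClosed_S1 x).inter (isClosed_eq continuous_snd continuous_const)

lemma isCompact_S0 (x : ℕ → SignType) : IsCompact (S0 x) :=
  (isCompact_S1 x).of_isClosed_subset (isClosed_S0 x) (fun _ h => h.1)

lemma shT_S1 (x : ℕ → SignType) : ∀ p ∈ S1 x, shT p ∈ S1 x := by
  have h : Set.MapsTo shT (Set.range (orb x)) (Set.range (orb x)) := by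
    rintro p ⟨n, rfl⟩
    exact ⟨n + 1, (shT_orb x n).symm⟩
  exact h.closure continuous_shT

lemma shT_S0 (x : ℕ → SignType) : ∀ p ∈ S0 x, shT p ∈ S0 x := by
  rintro p ⟨h1, h2⟩
  refine ⟨shT_S1 x p h1, ?_⟩
  unfold shT
  simp only
  rw [h2, zero_div]

lemma S0_nonempty (x : ℕ → SignType) : (S0 x).Nonempty := by
  obtain ⟨p, hp, φ, hφ, hlim⟩ := (isCompact_S1 x).isSeqCompact
    (x := fun n => orb x n) (fun n => subset_closure ⟨n, rfl⟩)
  refine ⟨p, hp, ?_⟩
  have h1 : Tendsto (fun n => (orb x (φ n)).2) atTop (𝓝 p.2) :=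
    (continuous_snd.tendsto p).comp hlim
  have h2 : Tendsto (fun n => (orb x (φ n)).2) atTop (𝓝 0) := by
    have : Tendsto (fun n : ℕ => (1 / 2 : ℝ) ^ n) atTop (𝓝 0) :=
      tendsto_pow_atTop_nhds_zero_of_lt_one (by norm_num) (by norm_num)
    exact this.comp hφ.tendsto_atTop
  exact tendsto_nhds_unique h1 h2

/-- points at time infinity are limits of shifts -/
lemma lim_of_mem {x : ℕ → SignType} {p : Om} (hp : p ∈ S0 x) :
    IsLim (fun l => ((x l : SignType) : ℝ)) (fun l => ((p.1 l : SignType) : ℝ)) := by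
  intro H n₀
  have hU : IsOpen {q : Om | (∀ l ∈ range H, q.1 l = p.1 l) ∧ |q.2| < (1 / 2 : ℝ) ^ n₀} := by
    apply IsOpen.inter
    · have : {q : Om | ∀ l ∈ range H, q.1 l = p.1 l} = ⋂ l ∈ range H, {q : Om | q.1 l = p.1 l} := by
        ext q
        simp
      change IsOpen {q : Om | ∀ l ∈ range H, q.1 l = p.1 l}
      rw [this]
      apply isOpen_biInter_finset
      intro l _
      have h1 : Continuous (fun q : Om => q.1 l) := (continuous_apply l).comp continuous_fst
      exact (isOpen_discrete {p.1 l}).preimage h1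
    · exact isOpen_lt (continuous_abs.comp continuous_snd) continuous_const
  have hpU : p ∈ {q : Om | (∀ l ∈ range H, q.1 l = p.1 l) ∧ |q.2| < (1 / 2 : ℝ) ^ n₀} := by
    refine ⟨fun _ _ => rfl, ?_⟩
    rw [hp.2, abs_zero]
    positivity
  obtain ⟨q, hqU, n, rfl⟩ := mem_closure_iff.mp hp.1 _ hU hpU
  refine ⟨n, ?_, ?_⟩
  · by_contra hcon
    push Not at hcon
    have h1 : |(orb x n).2| < (1 / 2 : ℝ) ^ n₀ := hqU.2
    have h2 : |(orb x n).2| = (1 / 2 : ℝ) ^ n := by
      unfold orb
      simp only
      rw [abs_of_nonneg (by positivity)]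
    rw [h2] at h1
    have h3 : (1 / 2 : ℝ) ^ n₀ ≤ (1 / 2 : ℝ) ^ n :=
      pow_le_pow_of_le_one (by norm_num) (by norm_num) hcon.le
    linarith
  · intro l hl
    have h1 := hqU.1 l (mem_range.mpr hl)
    have h2 : (orb x n).1 l = x (n + l) := rfl
    simp only
    rw [← h1, h2]

lemma iter_orb (x : ℕ → SignType) (n : ℕ) : shT^[n] (orb x 0) = orb x n := by
  induction n with
  | zero => rfl
  | succ n ih => rw [Function.iterate_succ_apply', ih, shT_orb]

lemma iter_fst (p : Om) (n l : ℕ) : (shT^[n] p).1 l = p.1 (n + l) := by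
  induction n generalizing l with
  | zero => simp
  | succ n ih =>
    rw [Function.iterate_succ_apply']
    unfold shT
    simp only
    have : (shT^[n] p).1 (l + 1) = p.1 (n + (l + 1)) := ih (l + 1)
    unfold shT at this
    rw [this]
    exact congrArg p.1 (by ring)

lemma sign_cast {x : ℝ} (h : x = 0 ∨ x = 1 ∨ x = -1) : ((SignType.sign x : SignType) : ℝ) = x := by
  rcases h with h | h | h
  · rw [h]; simp
  · rw [h]; simp
  · rw [h]; simp

lemma mu_cases (n : ℕ) : mu n = 0 ∨ mu n = 1 ∨ mu n = -1 := by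
  unfold mu
  rcases ArithmeticFunction.moebius_eq_or n with h | h | h
  · left; rw [h]; simp
  · right; left; rw [h]; simp
  · right; right; rw [h]; simp

lemma abs_sign_le (a : SignType) : |((a : SignType) : ℝ)| ≤ 1 := by
  cases a <;> simp

lemma sign_inj {a b : SignType} (h : ((a : SignType) : ℝ) = ((b : SignType) : ℝ)) : a = b := by
  cases a <;> cases b <;> simp at h ⊢ <;> norm_num at h

/-- The negation of Q1 of MP_cd1519_an follows from the maximal inequality. -/
theorem not_main_of_maximal (hMax : MaximalMoebius) :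
    ¬ (∀ (X : Type) [MetricSpace X] [CompactSpace X] [MeasurableSpace X] [BorelSpace X]
    (X' : Type) [MetricSpace X'] [CompactSpace X'] [MeasurableSpace X'] [BorelSpace X']
    (T : X → X) (T' : X' → X'), Continuous T → Continuous T' →
    (∀ μ : Measure X, IsProbabilityMeasure μ → MeasurePreserving T μ μ →
      ∃ ν : Measure X', IsProbabilityMeasure ν ∧ MeasurePreserving T' ν ν ∧
        ∃ φ : X → X', ∃ ψ : X' → X, MeasurePreserving φ μ ν ∧ MeasurePreserving ψ ν μ ∧
          (∀ᵐ x ∂μ, φ (T x) = T' (φ x)) ∧ (∀ᵐ x ∂μ, ψ (φ x) = x) ∧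
          (∀ᵐ y ∂ν, φ (ψ y) = y)) →
    (∀ ν : Measure X', IsProbabilityMeasure ν → MeasurePreserving T' ν ν →
      ∃ μ : Measure X, IsProbabilityMeasure μ ∧ MeasurePreserving T μ μ ∧
        ∃ φ : X → X', ∃ ψ : X' → X, MeasurePreserving φ μ ν ∧ MeasurePreserving ψ ν μ ∧
          (∀ᵐ x ∂μ, φ (T x) = T' (φ x)) ∧ (∀ᵐ x ∂μ, ψ (φ x) = x) ∧
          (∀ᵐ y ∂ν, φ (ψ y) = y)) →
    (∀ (x : X) (f : X → ℂ), Continuous f →
      Tendsto (fun N : ℕ => (N : ℂ)⁻¹ * ∑ n ∈ Finset.range N,
        ((ArithmeticFunction.moebius n : ℤ) : ℂ) * f (T^[n] x)) atTop (𝓝 0)) →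
    (∀ (x : X') (f : X' → ℂ), Continuous f →
      Tendsto (fun N : ℕ => (N : ℂ)⁻¹ * ∑ n ∈ Finset.range N,
        ((ArithmeticFunction.moebius n : ℤ) : ℂ) * f (T'^[n] x)) atTop (𝓝 0))) := by
  intro Hall
  -- enumeration of nonempty lists
  have : Nonempty {s : List ℕ // s ≠ []} := ⟨⟨[0], by simp⟩⟩
  obtain ⟨e, he⟩ := exists_surjective_nat {s : List ℕ // s ≠ []}
  set s : ℕ → List ℕ := fun i => (e i).1 with hs
  have hs0 : ∀ i, s i ≠ [] := fun i => (e i).2
  obtain ⟨nk, hmono, hnk, x, hx1, hx2, hx3⟩ := exists_point hMax hs0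
  -- the sign sequence
  set xs : ℕ → SignType := fun l => SignType.sign (x l) with hxs
  have hxs' : (fun l => ((xs l : SignType) : ℝ)) = x := by
    funext l
    apply sign_cast
    rcases hx1 l with h | h
    · left; exact h
    · rw [h]; exact mu_cases l
  -- the two spaces
  let X' : Type := ↥(S1 xs)
  let X : Type := ↥(S0 xs)
  have : CompactSpace X' := isCompact_iff_compactSpace.mp (isCompact_S1 xs)
  have : CompactSpace X := isCompact_iff_compactSpace.mp (isCompact_S0 xs)
  let mX' : MetricSpace X' := TopologicalSpace.metrizableSpaceMetric ↥(S1 xs)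
  let mX : MetricSpace X := TopologicalSpace.metrizableSpaceMetric ↥(S0 xs)
  let bX' : MeasurableSpace X' := borel X'
  have : BorelSpace X' := ⟨rfl⟩
  let bX : MeasurableSpace X := borel X
  have : BorelSpace X := ⟨rfl⟩
  let T' : X' → X' := fun p => ⟨shT p.1, shT_S1 xs p.1 p.2⟩
  let T : X → X := fun p => ⟨shT p.1, shT_S0 xs p.1 p.2⟩
  have hT'c : Continuous T' := (continuous_shT.comp continuous_subtype_val).subtype_mk _
  have hTc : Continuous T := (continuous_shT.comp continuous_subtype_val).subtype_mk _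
  let ι : X → X' := fun p => ⟨p.1, p.2.1⟩
  have hιc : Continuous ι := continuous_subtype_val.subtype_mk _
  have hιinj : Function.Injective ι := by
    intro p p' h
    apply Subtype.ext
    exact congrArg (fun q : X' => q.1) h
  have hι : Topology.IsClosedEmbedding ι := hιc.isClosedEmbedding hιinj
  have hcomm : ∀ p, ι (T p) = T' (ι p) := fun p => rfl
  obtain ⟨p₀, hp₀⟩ := S0_nonempty xs
  let x₀ : X := ⟨p₀, hp₀⟩
  let r : X' → ℝ := fun p => p.1.2
  have hrc : Continuous r := continuous_snd.comp continuous_subtype_val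
  have hTit : ∀ (n : ℕ) (p : X), (T^[n] p).1 = shT^[n] p.1 := by
    intro n p
    induction n with
    | zero => rfl
    | succ n ih => rw [Function.iterate_succ_apply', Function.iterate_succ_apply', ← ih]
  have hTit' : ∀ (n : ℕ) (p : X'), (T'^[n] p).1 = shT^[n] p.1 := by
    intro n p
    induction n with
    | zero => rfl
    | succ n ih => rw [Function.iterate_succ_apply', Function.iterate_succ_apply', ← ih]
  have key := Hall X X' T T' hTc hT'c
    (fun μ hμ hinv => match_up hι hTc.measurable hT'c.measurable hcomm x₀ μ hμ hinv)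
    (fun ν hν hinv => match_down hι hTc.measurable hT'c.measurable hcomm x₀ r hrc
      (fun p => (S1_sub xs p.2).2.1) (fun p => (S1_sub xs p.2).2.2) (fun p => rfl)
      (fun p hp => ⟨⟨p.1, p.2, hp⟩, rfl⟩) ν hν hinv)
    (by
      intro p f hf
      -- coordinates
      let c : ℕ → C(X, ℝ) := fun h => ⟨fun q => ((q.1.1 h : SignType) : ℝ), by
        have h1 : Continuous (fun q : X => q.1.1 h) :=
          (continuous_apply h).comp (continuous_fst.comp continuous_subtype_val)
        exact (continuous_of_discreteTopology (f := fun a : SignType => (a : ℝ))).comp h1⟩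
      have hsep : ∀ q q' : X, (∀ h, c h q = c h q') → q = q' := by
        intro q q' h
        apply Subtype.ext
        refine Prod.ext ?_ ?_
        · funext l
          exact sign_inj (h l)
        · rw [q.2.2, q'.2.2]
      set z : ℕ → ℝ := fun l => ((p.1.1 l : SignType) : ℝ) with hz
      have hzlim : IsLim x z := by
        have := lim_of_mem p.2
        rw [hxs'] at this
        exact this
      have hcz : ∀ n h, c h (T^[n] p) = z (n + h) := by
        intro n h
        change (((T^[n] p).1.1 h : SignType) : ℝ) = _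
        rw [hTit, iter_fst]
      have hmonoS : ∀ t : List ℕ, Small (fun n => (t.map (fun h => c h (T^[n] p))).prod) := by
        intro t
        have e1 : (fun n => (t.map (fun h => c h (T^[n] p))).prod) = fun n => mono t z n := by
          funext n
          unfold mono
          congr 1
          apply List.map_congr_left
          intro h _
          exact hcz n h
        rw [e1]
        by_cases ht : t = []
        · intro ε hε
          obtain ⟨N₀, hN₀⟩ := const_disjoint hMax ε hε
          refine ⟨N₀, fun N hN => ?_⟩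
          have := hN₀ N hN
          rw [ht]
          simpa [mono] using this
        · obtain ⟨i, hi⟩ := he ⟨t, ht⟩
          have hsi : s i = t := by
            rw [hs]
            simp only
            rw [hi]
          have h1 := lim_disjoint hmono hnk hzlim (fun l => abs_sign_le _) hx2 i (hs0 i)
          rw [hsi] at h1
          exact h1
      have hre := small_of_mono c hsep p hmonoS ⟨fun q => (f q).re, Complex.continuous_re.comp hf⟩
      have him := small_of_mono c hsep p hmonoS ⟨fun q => (f q).im, Complex.continuous_im.comp hf⟩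
      have h2 := hre.tendsto him
      have e2 : (fun N : ℕ => (N : ℂ)⁻¹ * ∑ n ∈ Finset.range N,
        ((ArithmeticFunction.moebius n : ℤ) : ℂ) * f (T^[n] p)) = (fun N : ℕ => (N : ℂ)⁻¹ * ∑ n ∈ range N,
      ((ArithmeticFunction.moebius n : ℤ) : ℂ) *
        ((((f (T^[n] p)).re : ℝ) : ℂ) + (((f (T^[n] p)).im : ℝ) : ℂ) * Complex.I)) := by
        funext N
        congr 1
        apply Finset.sum_congr rfl
        intro n _
        rw [Complex.re_add_im]
      rw [e2]
      exact h2)
  -- contradiction
  have hf0 : Continuous (fun q : X' => (((q.1.1 0 : SignType) : ℝ) : ℂ)) := by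
    have h1 : Continuous (fun q : X' => q.1.1 0) :=
      (continuous_apply 0).comp (continuous_fst.comp continuous_subtype_val)
    exact Complex.continuous_ofReal.comp
      ((continuous_of_discreteTopology (f := fun a : SignType => (a : ℝ))).comp h1)
  have h3 := key ⟨orb xs 0, subset_closure ⟨0, rfl⟩⟩ _ hf0
  rw [Metric.tendsto_atTop] at h3
  obtain ⟨N₀, hN₀⟩ := h3 (1 / 8) (by norm_num)
  obtain ⟨N, hN, hN1, hcorr⟩ := hx3 N₀
  have h4 := hN₀ N hN
  rw [dist_zero_right] at h4
  have e3 : ∑ n ∈ Finset.range N, ((ArithmeticFunction.moebius n : ℤ) : ℂ) *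
      (((((T'^[n] ⟨orb xs 0, subset_closure ⟨0, rfl⟩⟩).1.1 0 : SignType) : ℝ) : ℂ))
      = ((∑ l ∈ range N, mu l * x l : ℝ) : ℂ) := by
    push_cast
    apply Finset.sum_congr rfl
    intro n _
    have h5 : ((((T'^[n] ⟨orb xs 0, subset_closure ⟨0, rfl⟩⟩).1.1 0 : SignType) : ℝ)) = x n := by
      rw [hTit', iter_orb]
      have h6 : (orb xs n).1 0 = xs (n + 0) := rfl
      rw [h6, add_zero]
      exact congrFun hxs' n
    rw [h5]
    unfold mu
    push_cast
    rfl
  rw [e3, norm_mul, norm_inv, Complex.norm_natCast, Complex.norm_real, Real.norm_eq_abs] at h4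
  have hNpos : (0 : ℝ) < N := by exact_mod_cast hN1
  have h5 : (N : ℝ) / 8 ≤ |∑ l ∈ range N, mu l * x l| := le_trans hcorr (le_abs_self _)
  have h6 : (1 / 8 : ℝ) ≤ (N : ℝ)⁻¹ * |∑ l ∈ range N, mu l * x l| := by
    calc (1 / 8 : ℝ) = (N : ℝ)⁻¹ * ((N : ℝ) / 8) := by field_simp
      _ ≤ _ := mul_le_mul_of_nonneg_left h5 (by positivity)
  linarith

end Pool.Agent.Helper25.Dyn
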